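import Pool.Agent.H417.PL.Itv
import Pool.Agent.H417.PL.FtyKR
import Pool.Graph.R_seed8.R615.KU.DetK

/-!
# Rational injectivity of assembly in algebraic K-theory for groups of piecewise linear homeomorphisms

`A ≠ 0` is an additive subgroup of `ℝ`, `P` is a group of positive real numbers with `P · A ⊆ A`, and
`I` is an interval. `G(I; A, P)` is the group of Bieri and Strebel: the piecewise linear
homeomorphisms `g` of `ℝ` with support in `I`, with finitely many breaks, all of them in `A`, with
slopes in `P`, and with `g(A) = A`. We assume that `P` contains a rational number different from `1`.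
`A` and `P` may be uncountable and `P` may have infinite rank. Examples are the group `PL₊([0,1])` of
all the piecewise linear homeomorphisms of `[0,1]` (`A = ℝ`, `P = ℝ_{>0}`), the group of all the
rational piecewise linear homeomorphisms, Thompson's group `F` and the groups of Brown and Stein
(`A = ℤ[1/(n₁⋯n_k)]`, `P = ⟨n₁, …, n_k⟩`), on intervals `[0, l]`, on half lines and on the line.
These groups are torsion free, and if `I` has more than one point they contain free abelian groups of
infinite rank, so that they have infinite cohomological dimension. Most of them are not finitely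
generated. It is not known whether they satisfy the Farrell-Jones conjecture.

`R` is any ring, `rat (kgr R)` is the functor `G ↦ ℚ ⊗ K₁(R[G])`, `timesF T` is the functor
`G ↦ G × T`, and `hq j` is the functor `G ↦ H_j(G; ℚ)`. `DetK R G` says: for every group `T` and every
family of transformations `α_{j,i} : H_j(-; ℚ) → ℚ ⊗ K₁(R[- × T])`, `i ∈ I_j`, natural in the group,
such that for each `j` the `α_{j,i}`, `i ∈ I_j`, are linearly independent on the group `ℤ^j`, the sum
of all the `α_{j,i}` is injective on `G`. With `T = ℤ^k` this covers the rational assembly maps with
values in `K_q(R[G])`, `q ≤ 1`, as `K_q(R[G])` is a direct summand of `K₁(R[G × ℤ^{1-q}])`.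

We prove `DetK R (G(I; A, P))` for all rings `R` and all intervals `I`.

Outline of the proof. (1) Let `G` be the group of the elements supported in a half line `(b, ∞)`. For
`a > b` in `A` and `p` in `P` let `g_{a,p}` be the map which is equal to `g` before `a` and affine with
slope `p` after `a`. The two maps `g ↦ g_{a,p}`, `p` the right and the left derivative of `g` at `a`,
differ only at the finitely many breaks of `g`; they define transfers from `H_*(G)` to `H_*(S_e)`,
`S_e` the group of the elements which fix `e` and are affine after `e`, one for each orbit in `A`. The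
sum over the breaks telescopes: a class whose transfers vanish is determined by the germs at `b`.
(2) Let `K` be the group of the elements with compact support. Telescoping transfers along the
conjugates `t^n N t^{-n} ⊂ N` show that `H_*(S_e)` is detected by the two derivatives at `e` and the
truncation `S_e → K` (this uses that `H_*(P)` is the homology of `(P-1)A ⋊ P`). (3) The two maps in
(1) have the same truncation, so that the transfer of a class has trivial image in `H_*(K)`. Hence, for
a class in the kernel of the sum of the `α_{j,i}`, induction on the degree gives that the transfers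
vanish, as transformations tensored with independent classes of `H_*(P × P)` are again independent.
(4) A rational number `s ≠ 1` in `P` acts on `H_q(A; ℚ)` as the multiplication by `s^q`, so that the
homology of `A ⋊ P` and of `(P-1)A ⋊ P` is the homology of `P`. (5) `P` is a union of free
abelian groups, `G(I; A, P)` is a union of groups of this kind with end points in `A`, and every
relation in `K₁(R[G])` holds already over a finitely generated subgroup.
-/

set_option autoImplicit false

namespace Pool.Agent.Results.MP_f7db47_al.BieriStrebelGroups

open Pool.Agent.R615.KU Pool.Agent.R615.K1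

/-- **The group `G(I; A, P)` of Bieri and Strebel**: the group (under composition) of the order
preserving bijections `g` of the real line which map `A` onto itself, are trivial outside of `I`, and
for which there is a finite subset `F` of `A` such that on every interval `[x, y]` which has no element
of `F` in its interior `g` is affine with a slope in `P`. -/
def BieriStrebel (A : AddSubgroup ℝ) (P : Subgroup ℝˣ) (I : Set ℝ) : Subgroup (ℝ ≃o ℝ) where
  carrier := {g | (∀ x, g x ∈ A ↔ x ∈ A) ∧ (∀ x, x ∉ I → g x = x) ∧
    ∃ F : Finset ℝ, (∀ z ∈ F, z ∈ A) ∧ ∀ x y, x < y → (∀ z ∈ F, z ≤ x ∨ y ≤ z) →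
      ∃ p : P, ∀ z, x ≤ z → z ≤ y → g z = g x + ((p : ℝˣ) : ℝ) * (z - x)}
  one_mem' := (Pool.Agent.H417.PL.BS A P I).one_mem'
  mul_mem' := (Pool.Agent.H417.PL.BS A P I).mul_mem'
  inv_mem' := (Pool.Agent.H417.PL.BS A P I).inv_mem'

theorem result (R : Type) [Ring R] (A : AddSubgroup ℝ) (_ : A ≠ ⊥) (P : Subgroup ℝˣ)
    (_ : ∀ p ∈ P, 0 < ((p : ℝˣ) : ℝ)) (_ : ∀ p ∈ P, ∀ a ∈ A, ((p : ℝˣ) : ℝ) * a ∈ A)
    (_ : ∃ p ∈ P, ∃ s : ℚ, s ≠ 1 ∧ ((p : ℝˣ) : ℝ) = s) (I : Set ℝ) (_ : I.OrdConnected) :
    DetK R (BieriStrebel A P I) := by
  rename_i hA hpos hmul hs hI
  exact Pool.Agent.H417.PL.det_all (hasPT_rat (hasPTI_kgr R)) (Pool.Agent.H417.PL.fty_K R)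
    A hA P hpos hmul hs I hI

end Pool.Agent.Results.MP_f7db47_al.BieriStrebelGroups
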