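import Pool.Agent.H416.KM.Fin
import Pool.Agent.H416.WR.Props

set_option autoImplicit false

/-!
# Chern characters of `K_m(B[G])`, all `m ∈ ℤ`, all rings `B`: elements with linear or cohomologically
# finite centralisers

Let `B` be a ring, `G` a group and `g ∈ G` an element of infinite order. The components at the class of
`g` of the Chern characters `K_m(B[G]) → HC_{m+2j}(B[G]) ⊗ ℚ`, `j ≥ 0`, vanish on the image of the
Farrell-Jones assembly map, so they are zero if the conjecture is true. The conjecture is open for
linear groups. We prove this consequence for all rings `B` and all `m` if `g` is `Good`: `g` has infinite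
order and each finitely generated subgroup `H` of `G` containing `g` has one of the properties

* `LinC`: the centraliser of `g` in `H` has a representation of finite degree over some field, of any
  characteristic, in which `g` has infinite order;
* `CohC`: the centraliser of `g` in `H` has a homomorphism `f` to a group `C'` (for example to itself) such
  that `f g` is central of infinite order and `H^(2 j + 2)(C' / ⟨f g⟩; ℚ) = 0` for some `j ≥ 0`; for example
  this is so if `C' / ⟨f g⟩` has finite cohomological dimension over `ℚ`.

So all elements of infinite order are `Good` in the groups in the class `LinCls` of the groups such that in all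
finitely generated subgroups the elements of infinite order have `LinC`. It contains all linear
groups over fields of any characteristic, the groups `Out(F_n)` and `Aut(F_n)`, the groups of
automorphisms of finitely generated residually torsion-free nilpotent groups, and the groups of germs of
diffeomorphisms and of automorphisms of varieties fixing a point; and it is closed under subgroups,
overgroups of finite index, finite direct products, wreath products with finite groups, directed
unions, and extensions by finitely generated residually torsion-free nilpotent groups with trivial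
centre, for example by free groups of finite rank `≥ 2` and fundamental groups of closed orientable
surfaces of genus `≥ 2`.
They are also `Good` in the groups such that the quotients of the centralisers have finite rational
cohomological dimension.

**The K-groups.** For a ring `A` let `L A` be the ring of the polynomials `f` over `A` in a central
variable `t` with `f(0) = f(1)`, and `L^k A` its `k`-th iteration, the ring of the polynomials in
`t_1, …, t_k` which are equal at `t_i = 0` and at `t_i = 1`, for all `i` (the ring of the distinguished
elements of the datum `loops k`). For `m ≥ 1` the Chern characters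
of `K_m(A)` factor through the Karoubi-Villamayor group `KV_m(A)` (since they factor through periodic
cyclic homology, which is homotopy invariant), and the elements of `KV_m(A)` are given by the invertible
matrices over `L^(m-1) A` which are `1` at `t_i = 0` and `t_i = 1`, for all `i`. The elements of `K_0(A)` are
given by the idempotent matrices over `A = L^0 A`, and those of `K_{-r}(B[G])` by the idempotent
matrices over `B'[G]`, `B' = B[ℤ^r]`.

**The Chern characters.** The cyclic cocycles of `A = B[G]` of dimension `N` with rational values are
given by the cycles `(Ω, δ, T)` of Connes over `B[G]` of dimension `N`, and functionals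
`f : M → ℚ` on the range `M` of `T`. The ring `LΩ` of the forms `a + b dt` on the interval, `a, b ∈ Ω[t]`,
`a(0) = a(1)`, with the total differential and the trace `T(a + b dt) = ∫ T(b(t)) dt` is a cycle of
dimension `N + 1` over `L A` (`Dat.loop`). The character of the class of an invertible matrix `u` over
`L^k A` is a multiple of `T_k((u⁻¹ δu) ^ (2 n + 1))`, where `2 n + 1 = N + k`, and the one of the class of an
idempotent matrix `e` is a multiple of `T_k(e (δe) ^ (2 n))`, `2 n = N + k`. (For all other `n` these
values are zero.) `Dat.comp` is the component of such a value at the class of `g`: the sum of the terms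
in which the product of the group elements is a conjugate of `g`.

Idea of the proof. Odd characters are reduced to even ones by an idempotent over forms on the interval with
values in `2 × 2` matrices, higher dimensional cycles to traces by Fedosov's product. For traces one
evaluates functions of closed polygons in `G` on `e ⊗ ⋯ ⊗ e`. The Euler class of the centraliser as an
extension by `g` is represented by the coboundary of a skew function `b` with `b(u, g v) = b(u, v) + 2`. The
evaluation of the Pfaffian of `b`, bordered by `1`, is a nonzero multiple of the trace at `g`, by a sign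
reversing involution which uses rotations of polygons. For `LinC` the function `b` is
`tr (N (R_u R_v - R_v R_u))` for operators on a space of finite dimension (`N` the nilpotent part of
`g`), so its large Pfaffians are zero; in the case `CohC` the bordered Pfaffian is a coboundary.
-/

namespace Pool.Agent.Results.MP_f7db47_al.CentralizersAllDegrees

open Pool.Agent.V11187.DG (Cyc rh)
open Pool.Agent.H881.LG11 (epsR)
open Pool.Agent.H416.LG (Good OnLinear)
open Pool.Agent.H416.WR (LinCls Closed Members)
open Pool.Agent.H416.KM (Datum Dat)

universe u v w x y z

section defs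

variable {K : Type u} [CommRing K] {Ω : Type v} [Ring Ω] [Algebra K Ω] {G : Type w} [Group G]
  {M : Type x} [AddCommGroup M] [Module K M] {B : Type y} [Ring B]

/-- The cycle `(Ω, δ, T)` over `B[G]` with the functional `f`: all elements of `A = B[G]` are
distinguished, `epsR` is `(-1) ^ i` on the elements of degree `i`, and `rh ρ : B[G] → Ω[G]` maps `b h` to
`ρ(b h) h`. -/
noncomputable def datum (𝒜 : ℕ → Submodule K Ω) [GradedAlgebra 𝒜] (δ : Ω →ₗ[K] Ω) (T : Ω →ₗ[K] M)
    (ρ : MonoidAlgebra B G →+* Ω) (f : M →+ ℚ) : Dat.{v, w, max y w} G where
  A := MonoidAlgebra B G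
  P _ := True
  Ω := Ω
  ε := epsR 𝒜
  δ := δ
  T s := f (T s)
  σ := rh ρ

end defs

/-- For all rings `B`, all cycles `(Ω, δ, T)` over `B[G]` of any dimension `N` and all `k ≥ 0`, the
components at the class of `g` of the values of the trace `T_k` on the idempotent matrices (if `N + k` is
even) and on the invertible matrices (if `N + k` is odd) over the ring `L^k B[G]` are zero. -/
def AllDegrees (G : Type w) [Group G] (g : G) : Prop :=
  ∀ (K : Type u) [CommRing K] (B : Type y) [Ring B] (Ω : Type v) [Ring Ω] [Algebra K Ω]
    (𝒜 : ℕ → Submodule K Ω) [GradedAlgebra 𝒜] (M : Type x) [AddCommGroup M] [Module K M]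
    (δ : Ω →ₗ[K] Ω) (T : Ω →ₗ[K] M) (N : ℕ), Cyc N 𝒜 δ T →
    ∀ ρ : MonoidAlgebra B G →+* Ω, (∀ a, ρ a ∈ 𝒜 0) → ∀ (f : M →+ ℚ) (k : ℕ),
      ((datum 𝒜 δ T ρ f).loops k).Vanish (N + k) g

/-- For all rings `B`, all cycles `(Ω, δ, T)` over `B[G]` of any dimension `N` and all `k ≥ 0`, the values
of the trace `T_k` on the idempotent matrices (if `N + k` is even) and on the invertible matrices (if
`N + k` is odd) over the ring `L^k B[G]` are the contributions of the elements of finite order. -/
def OnlyFinite (G : Type w) [Group G] : Prop :=
  ∀ (K : Type u) [CommRing K] (B : Type y) [Ring B] (Ω : Type v) [Ring Ω] [Algebra K Ω]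
    (𝒜 : ℕ → Submodule K Ω) [GradedAlgebra 𝒜] (M : Type x) [AddCommGroup M] [Module K M]
    (δ : Ω →ₗ[K] Ω) (T : Ω →ₗ[K] M) (N : ℕ), Cyc N 𝒜 δ T →
    ∀ ρ : MonoidAlgebra B G →+* Ω, (∀ a, ρ a ∈ 𝒜 0) → ∀ (f : M →+ ℚ) (k : ℕ),
      ((datum 𝒜 δ T ρ f).loops k).OnlyFinite (N + k)

theorem isCycle {G : Type w} [Group G] {K : Type u} [CommRing K] {B : Type y} [Ring B]
    {Ω : Type v} [Ring Ω] [Algebra K Ω] {𝒜 : ℕ → Submodule K Ω} [GradedAlgebra 𝒜] {M : Type x}
    [AddCommGroup M] [Module K M] {δ : Ω →ₗ[K] Ω} {T : Ω →ₗ[K] M} {N : ℕ} (hc : Cyc N 𝒜 δ T)
    {ρ : MonoidAlgebra B G →+* Ω} (hρ : ∀ a, ρ a ∈ 𝒜 0) (f : M →+ ℚ) :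
    (⟨MonoidAlgebra B G, Ω, epsR 𝒜, δ.toAddMonoidHom, f.comp T.toAddMonoidHom, rh ρ⟩ :
      Datum.{v, w, max y w} G).IsCycle N :=
  ⟨Pool.Agent.H416.KM.tr_of_cyc hc f,
    Pool.Agent.H416.KM.ev_of_mem (Ω := Ω) (𝒜 := 𝒜) (σ := rh ρ) fun a =>
      Pool.Agent.V11187.DG.rh_mem hρ a⟩

/-- (1) If `g` is a `Good` element of the group `G`, then the components at `g` of the characters in all
degrees vanish.
(2) If all elements of infinite order of `G` are `Good`, then these characters are the contributions
of the elements of finite order.
(3) An element `g` of `G` is `Good` if each finitely generated subgroup containing `g` is mapped to some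
`GL_n(F)`, `F` a field, with image of `g` of infinite order, or if the image of `g` under a homomorphism
to a group in the class `LinCls` has infinite order. The class `LinCls` has the closure properties
`Closed` and contains the groups `Members`. -/
theorem result :
    (∀ (G : Type w) [Group G] (g : G), Good.{w, z} G g → AllDegrees.{u, v, w, x, y} G g) ∧
    (∀ (G : Type w) [Group G], (∀ g : G, ¬ IsOfFinOrder g → Good.{w, z} G g) →
      OnlyFinite.{u, v, w, x, y} G) ∧
    (∀ (G : Type w) [Group G] (g : G), OnLinear.{w, z} G g → Good.{w, z} G g) ∧
    (∀ (G G' : Type w) [Group G] [Group G'] (f : G →* G') (g : G), LinCls.{w, w} G' →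
      ¬ IsOfFinOrder (f g) → Good.{w, w} G g) ∧ Closed.{w} ∧ Members.{w} := by
  refine ⟨?_, ?_, fun G _ g hg => Good.of_linear hg,
    fun G G' _ _ f g h hg => Pool.Agent.H416.WR.good_of_hom f g h hg,
    Pool.Agent.H416.WR.closed, Pool.Agent.H416.WR.members⟩
  · intro G _ g hg K _ B _ Ω _ _ 𝒜 _ M _ _ δ T N hc ρ hρ f k
    exact Pool.Agent.H416.KM.vanish_loops (Datum.sim _) (isCycle hc hρ f) hg k
  · intro G _ hG K _ B _ Ω _ _ 𝒜 _ M _ _ δ T N hc ρ hρ f k
    exact Pool.Agent.H416.KM.onlyFinite_loops (Datum.sim _) (isCycle hc hρ f) hG k

end Pool.Agent.Results.MP_f7db47_al.CentralizersAllDegrees
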