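import Pool.Agent.H416.HCg

set_option autoImplicit false

/-!
# The Chern characters `K_m(B[G]) → HC_{m+2j}(B[G])`, all `m ≥ 1`, `j ≥ 0`, all rings `B`

Let `B` be any ring (for `K_m` with `m ≤ 0` replace `B` by `B[ℤ^k]`) and `G` a group. The Chern
character `K_m(B[G]) → HC_{m+2j}(B[G])` is the composition of the Hurewicz map
`K_m(B[G]) → H_m(GL(B[G]); ℤ)`, of the rational inclusion of `H_m(GL(B[G]))` in the component of the
class of `1` of `HC_{m+2j}(ℤ[GL(B[G])])`, and of the map to `HC_{m+2j}(B[G])`. On the image of the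
assembly map of the Farrell-Jones conjecture the components of these Chern characters at the conjugacy
classes of the elements `g` of infinite order are zero rationally; so the conjecture (surjectivity of
the assembly map) predicts that they are zero. We prove this consequence if `g` is `Good`: it has infinite order in the abelianisation of its centraliser, or each finitely generated
subgroup of `G` containing `g` acts

* by homeomorphisms on the circle such that the fixed point set of every element has finitely many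
  boundary points, `g` acting by a homeomorphism of infinite order (`OnCircle`; for instance piecewise
  analytic homeomorphisms), or
* by isometries on a CAT(0) space or on a metric space of negative type (for instance subsets of
  `L^1`, real trees, median spaces) such that `g` has positive translation length, or on a space with
  walls such that `g` has an unbounded orbit.

Nothing is assumed about the stabilizers, and `g` may be conjugate to `g ^ 2` and infinitely
divisible (`OnCircle`: translations in the affine group of the rational numbers).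

`IsCyclicCycle z`: `z` is a cycle of degree `n + 1` of Connes' complex of `ℤ[GL_d(B[G])]`, component of
the class of `1`, in homogeneous notation: `(γ_0, …, γ_{n+1})` is the chain
`γ_{n+1}⁻¹γ_0 ⊗ γ_0⁻¹γ_1 ⊗ ⋯ ⊗ γ_n⁻¹γ_{n+1}`. The cyclic cocycles of degree `n + 1` of `B[G]` are given by the
cycles `(Ω, δ, T)` of Connes over `B[G]`; `value` is the value on the image of `z` and `component … g`
its component at the class of `g`, `finitePart` its part of the elements of finite order.

Outline of the proof. There is a function `l` with rational values, additive on the centraliser of `g`,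
with `l g = 1`. With a homomorphism from `M` to `ℚ` it gives a form `P` on the matrices over `Ω[G]`
which is a Hochschild cocycle and for which `P(1, X)` is the component at `g` of `T(X)`. We show that
the cochain `(γ_0, …, γ_n) ↦ P(1, γ_n⁻¹γ_0 δ(γ_0⁻¹γ_1) ⋯)` is `B Ψ`, where `B` is the operator of Connes, for a
homogeneous group cocycle `Ψ` of `GL_d(B[G])`, and that `B` is equivariantly null-homotopic on the
cyclic set of all tuples of elements of a set. So the cochain is a sum over faces of a cyclic cochain.
-/

namespace Pool.Agent.Results.MP_f7db47_al.HigherChernGeometric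

open Pool.Agent.V11187.DG (Cyc compT rh dh)
open Pool.Agent.H416 (RC OnCircle OnCAT0 OnNegType OnWalls)
open Pool.Agent.H416.HC (IsCyclicCycle finT)

universe u v w x y z

/-- `g` has infinite order in the abelianisation of its centraliser, or acts suitably on the circle,
on a CAT(0) space, on a space of negative type or on a space with walls. -/
def Good (G : Type w) [Group G] (g : G) : Prop :=
  RC g ∨ OnCircle G g ∨ OnCAT0.{w, z} G g ∨ OnNegType.{w, z} G g ∨ OnWalls.{w, z} G g

section defs

variable {K : Type u} [CommRing K] {Ω : Type v} [Ring Ω] [Algebra K Ω] {G : Type w} [Group G]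
  {M : Type x} [AddCommGroup M] [Module K M] {B : Type y} [Ring B]

/-- The matrix `γ_n⁻¹γ_0 δ(γ_0⁻¹γ_1) ⋯ δ(γ_{n-1}⁻¹γ_n)` over `Ω[G]`; its coefficient at `h` is the sum
of the terms in which the product of the group elements is `h`. -/
noncomputable def word (δ : Ω →ₗ[K] Ω) (ρ : MonoidAlgebra B G →+* Ω) {d n : ℕ}
    (γ : Fin (n + 1) → (Matrix (Fin d) (Fin d) (MonoidAlgebra B G))ˣ) :
    Matrix (Fin d) (Fin d) (MonoidAlgebra Ω G) :=
  ((γ (Fin.last n))⁻¹ * γ 0).val.map (rh ρ) * (List.ofFn fun i : Fin n =>
    ((((γ i.castSucc)⁻¹ * γ i.succ)).val.map (rh ρ)).map (dh G δ)).prod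

/-- The component at the conjugacy class of `g` of the value of the cycle `(Ω, δ, T)` on `z`. -/
noncomputable def component (δ : Ω →ₗ[K] Ω) (T : Ω →ₗ[K] M) (ρ : MonoidAlgebra B G →+* Ω)
    {d n : ℕ} (z : (Fin (n + 1) → (Matrix (Fin d) (Fin d) (MonoidAlgebra B G))ˣ) →₀ ℤ) (g : G) : M :=
  z.sum fun γ a => a • compT T (word δ ρ γ) g

/-- The part of the elements of finite order of the value of the cycle `(Ω, δ, T)` on `z`. -/
noncomputable def finitePart (δ : Ω →ₗ[K] Ω) (T : Ω →ₗ[K] M) (ρ : MonoidAlgebra B G →+* Ω)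
    {d n : ℕ} (z : (Fin (n + 1) → (Matrix (Fin d) (Fin d) (MonoidAlgebra B G))ˣ) →₀ ℤ) : M :=
  z.sum fun γ a => a • finT T (word δ ρ γ)

/-- The value of the cycle `(Ω, δ, T)` on `z`. -/
noncomputable def value (δ : Ω →ₗ[K] Ω) (T : Ω →ₗ[K] M) (ρ : MonoidAlgebra B G →+* Ω)
    {d n : ℕ} (z : (Fin (n + 1) → (Matrix (Fin d) (Fin d) (MonoidAlgebra B G))ˣ) →₀ ℤ) : M :=
  z.sum fun γ a => a • T (((γ (Fin.last n))⁻¹ * γ 0).val.map ρ * (List.ofFn fun i : Fin n =>
    ((((γ i.castSucc)⁻¹ * γ i.succ)).val.map ρ).map δ).prod).trace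

end defs

/-- (1) Let `g` be a `Good` element of the group `G`. For all rings `B`, all cycles `(Ω, δ, T)` over
`B[G]` and all cycles `z` of Connes' complex of `ℤ[GL_d(B[G])]` (component of the class of `1`) of
degree `n + 1`, the component of the value at the class of `g` is a torsion element.
(2) If all elements of infinite order of `G` are `Good`, and the cycle has values in a torsion-free
group, then the value is the contribution of the elements of finite order. -/
theorem result :
    (∀ (G : Type w) [Group G] (g : G), Good.{w, z} G g →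
      ∀ (K : Type u) [CommRing K] (B : Type y) [Ring B] (Ω : Type v) [Ring Ω] [Algebra K Ω]
        (𝒜 : ℕ → Submodule K Ω) [GradedAlgebra 𝒜] (M : Type x) [AddCommGroup M] [Module K M]
        (δ : Ω →ₗ[K] Ω) (T : Ω →ₗ[K] M) (N : ℕ), Cyc N 𝒜 δ T →
        ∀ ρ : MonoidAlgebra B G →+* Ω, (∀ a, ρ a ∈ 𝒜 0) →
        ∀ (d n : ℕ) (z : (Fin (n + 2) → (Matrix (Fin d) (Fin d) (MonoidAlgebra B G))ˣ) →₀ ℤ),
          IsCyclicCycle z → ∃ k : ℤ, k ≠ 0 ∧ k • component δ T ρ z g = 0) ∧
    (∀ (G : Type w) [Group G], (∀ g : G, ¬ IsOfFinOrder g → Good.{w, z} G g) →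
      ∀ (K : Type u) [CommRing K] (B : Type y) [Ring B] (Ω : Type v) [Ring Ω] [Algebra K Ω]
        (𝒜 : ℕ → Submodule K Ω) [GradedAlgebra 𝒜] (M : Type x) [AddCommGroup M] [Module K M]
        (δ : Ω →ₗ[K] Ω) (T : Ω →ₗ[K] M) (N : ℕ), (∀ (k : ℤ) (m : M), k ≠ 0 → k • m = 0 → m = 0) →
        Cyc N 𝒜 δ T → ∀ ρ : MonoidAlgebra B G →+* Ω, (∀ a, ρ a ∈ 𝒜 0) →
        ∀ (d n : ℕ) (z : (Fin (n + 2) → (Matrix (Fin d) (Fin d) (MonoidAlgebra B G))ˣ) →₀ ℤ),
          IsCyclicCycle z → value δ T ρ z = finitePart δ T ρ z) := by
  have hgood : ∀ (G : Type w) [Group G] (g : G), Good.{w, z} G g → RC g := by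
    intro G _ g hg
    rcases hg with h | h | h | h | h
    · exact h
    · exact (Pool.Agent.H416.Cls.loc_circle h).rc
    · exact (Pool.Agent.H416.Cls.loc_cat0 h).rc
    · exact (Pool.Agent.H416.Cls.loc_negType h).rc
    · exact (Pool.Agent.H416.Cls.loc_negType (Pool.Agent.H416.Cls.negType_of_walls h)).rc
  refine ⟨?_, ?_⟩
  · intro G _ g hg K _ B _ Ω _ _ 𝒜 _ M _ _ δ T N hc ρ hρ d n z hz
    exact Pool.Agent.H416.HC.torsionC (hgood G g hg) hc
      (fun a => Pool.Agent.V11187.DG.rh_mem hρ a) (Units.coeHom _) z hz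
  · intro G _ hG K _ B _ Ω _ _ 𝒜 _ M _ _ δ T N hM hc ρ hρ d n z hz
    have h := Pool.Agent.H416.HC.valC_main (fun g hg => hgood G g (hG g hg)) hM hc
      (σ := rh ρ) (fun a => Pool.Agent.V11187.DG.rh_mem hρ a) (Units.coeHom _) z hz
    have hρ2 : (Pool.Agent.V11187.DG.au Ω G).comp (rh ρ) = ρ :=
      RingHom.ext fun a => Pool.Agent.V11187.DG.au_rh ρ a
    rw [hρ2] at h
    exact h

end Pool.Agent.Results.MP_f7db47_al.HigherChernGeometric
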